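import Pool.Agent.TH738.NR.Below
import Pool.Agent.TH738.NR.Image
import Pool.Agent.Results.MP_4b35b9_lc.NoSelfModulus

set_option autoImplicit false

/-! Problem MP_2f7dfd_lc, question Q1, answered positively: there is a Turing degree all of whose
members are NCR and which is not below any recursively enumerable degree, incomplete or not. The
reals below it are even all NCR, and it is hyperarithmetic.

The definitions of `Below`, `NCR` (with `Cyl`, `Represents`, `IsTest`, `Random`) and
`Hyperarithmetic` are those of `Pool/Agent/Results/MP_4b35b9_lc/NoSelfModulus.lean`. The real `X`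
is a noncomputable member of a countable effectively closed class such that every function
computable from `X` is bounded by a computable function (`Good`, `Pool/Agent/TH738/NR`). -/

namespace Pool.Agent.Results.MP_2f7dfd_lc.CompletelyNCROutside

open Pool.Agent.TH738.NR
open Pool.Agent.Results.MP_4b35b9_lc.NoSelfModulus (Below NCR Hyperarithmetic below_iff ncr hyp)

/-- The Turing degree of `X` is completely NCR: every real of the same degree is NCR. -/
def CompletelyNCR (X : ℕ → Bool) : Prop := ∀ Y : ℕ → Bool, Below Y X → Below X Y → NCR Y

/-- The set `A` is recursively enumerable. -/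
def RE (A : ℕ → Bool) : Prop := REPred (fun n => A n = true)

/-- The set `B` has an incomplete r.e. degree: it is Turing equivalent to an r.e. set which does
not compute every r.e. set. -/
def IncompleteREDegree (B : ℕ → Bool) : Prop :=
  ∃ A : ℕ → Bool, RE A ∧ Below A B ∧ Below B A ∧ ∃ C : ℕ → Bool, RE C ∧ ¬ Below C A

/-- There is a completely NCR degree which is not below any incomplete r.e. degree. In fact there
is a hyperarithmetic real `X` such that all reals computable from `X` are NCR and `X` is not
computable from any r.e. set. -/
theorem result :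
    (∃ X : ℕ → Bool, CompletelyNCR X ∧ ∀ B : ℕ → Bool, IncompleteREDegree B → ¬ Below X B) ∧
    ∃ X : ℕ → Bool, Hyperarithmetic X ∧ (∀ Y : ℕ → Bool, Below Y X → NCR Y) ∧
      ∀ A : ℕ → Bool, RE A → ¬ Below X A := by
  obtain ⟨X, h⟩ := exists_good
  have h1 : ∀ Y : ℕ → Bool, Below Y X → NCR Y := fun Y hY => ncr h hY
  have h2 : ∀ A : ℕ → Bool, RE A → ¬ Below X A := fun A hA hX => h.not_below hA (below_iff.1 hX)
  refine ⟨⟨X, fun Y hY _ => h1 Y hY, ?_⟩, X, hyp h, h1, h2⟩
  rintro B ⟨A, hA, -, hBA, -⟩ hXB
  exact h2 A hA (TuringReducible.trans hXB hBA)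

end Pool.Agent.Results.MP_2f7dfd_lc.CompletelyNCROutside
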